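import Pool.Agent.H98.SD.Lib
import Pool.Agent.H72.HV.UNI

/-!
# Row WIJ of the board SecondDichotomy (MP_e37c09_lc): in the first case there is an injection
-/

open Ordinal Cardinal Order Set
open scoped ZFSet

universe u

namespace Pool.Agent.H81.SD

open _root_.HD _root_.HD.SD HD.NF

/-- `c` is the least code of its trace on `l`. -/
def Jt (en : Ordinal.{u} → ZFSet.{u}) (l : Ordinal.{u}) (x : ZFSet.{u}) (c : Ordinal.{u}) :
    Prop := ∀ c' < c, ∃ a < l, ¬ (a ∈ Sc en x c ↔ a ∈ Sc en x c')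

theorem dx_Jt (hDXS : T_DXS.{u}) {en : Ordinal.{u} → ZFSet.{u}} (hen : EN en)
    (l : Ordinal.{u}) : DX fun x w => Jt en l x (w 0) := by
  refine DX.allLt 0 (S := fun c' x w => ∃ a < l, ¬ (a ∈ Sc en x (w 0) ↔ a ∈ Sc en x c')) ?_
  refine DX.exLtc l (S := fun a x w => ¬ (a ∈ Sc en x (w 1) ↔ a ∈ Sc en x (w 0))) ?_
  have h := (hDXS en hen).1
  exact ((h.ren fun n => if n = 0 then 0 else 2).iff
    (h.ren fun n => if n = 0 then 0 else 1)).not

theorem os_eq_iff {l : Ordinal.{u}} {X : Set Ordinal.{u}} {z : ZFSet.{u}} :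
    (∀ t, t ∈ z ↔ t ∈ l.toZFSet ∧ ∃ a : Ordinal.{u}, a ∈ X ∧ t = a.toZFSet) ↔ z = os l X := by
  constructor
  · intro h
    ext t
    rw [h t, mem_os]
    constructor
    · rintro ⟨h1, a, ha, rfl⟩
      exact ⟨a, toZFSet_mem_toZFSet_iff.1 h1, ha, rfl⟩
    · rintro ⟨a, h1, ha, rfl⟩
      exact ⟨toZFSet_mem_toZFSet_iff.2 h1, a, ha, rfl⟩
  · rintro rfl t
    rw [mem_os]
    constructor
    · rintro ⟨a, h1, ha, rfl⟩
      exact ⟨toZFSet_mem_toZFSet_iff.2 h1, a, ha, rfl⟩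
    · rintro ⟨h1, a, ha, rfl⟩
      exact ⟨a, toZFSet_mem_toZFSet_iff.1 h1, ha, rfl⟩

/-- Each subset of `L` is the trace of a section with a least code. -/
theorem trace {en : Ordinal.{u} → ZFSet.{u}} (hen : EN en) {l : Ordinal.{u}} {x : ZFSet.{u}}
    (hx : ∀ z, z ⊆ l.toZFSet → ODp x z) (s : Set Ordinal.{u}) :
    ∃ c, Jt en l x c ∧ ∀ a < l, (a ∈ Sc en x c ↔ a ∈ s) := by
  have h1 : os l s ⊆ l.toZFSet := fun w hw => (ZFSet.mem_sep.1 hw).1
  obtain ⟨R, hR, -, hR2⟩ := Pool.Agent.H72.HV.pf_UNI.1 (succ x.rank) l.toZFSet x (os l s)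
    (OD.ordinal _) (ZFSet.mem_vonNeumann.2 (lt_succ _)) (hx _ h1) h1
  obtain ⟨c, hc⟩ := (hen.od R).1 hR
  have hne : ({c | ∀ a < l, (a ∈ Sc en x c ↔ a ∈ s)} : Set Ordinal.{u}).Nonempty := by
    refine ⟨c, fun a ha => ?_⟩
    show ZFSet.pair x a.toZFSet ∈ en c ↔ a ∈ s
    rw [hc, hR2, ord_mem_os]
    exact ⟨fun h => h.2, fun h => ⟨ha, h⟩⟩
  have hm := csInf_mem hne
  refine ⟨sInf {c | ∀ a < l, (a ∈ Sc en x c ↔ a ∈ s)}, fun c' hc' => ?_, hm⟩
  by_contra hcon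
  push Not at hcon
  exact notMem_of_lt_csInf hc' (OrderBot.bddBelow _)
    fun a ha => (hcon a ha).symm.trans (hm a ha)

/-- There are more than `L` traces. -/
theorem large {en : Ordinal.{u} → ZFSet.{u}} (hen : EN en) {L : Cardinal.{u}} {x : ZFSet.{u}}
    (hx : ∀ z, z ⊆ L.ord.toZFSet → ODp x z) :
    ∀ i < (succ L).ord, ∃ z, nth {c | Jt en L.ord x c} i z := by
  rcases (All.vh {c | Jt en L.ord x c}).2.2.2 (succ L).ord with h | h
  · exfalso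
    obtain ⟨τ, hτ, e, he⟩ := h
    have hf : Function.Surjective
        (fun (i : Iio τ) => ({a | a.1 ∈ Sc en x (e i.1)} : Set (Iio L.ord))) := by
      intro s
      obtain ⟨c, hc, hc2⟩ := trace hen hx (Subtype.val '' s)
      obtain ⟨i, hi, hic⟩ := he c hc
      refine ⟨⟨i, hi⟩, ?_⟩
      ext a
      show a.1 ∈ Sc en x (e i) ↔ a ∈ s
      rw [hic, hc2 a.1 a.2]
      exact ⟨fun ⟨b, hb, he⟩ => Subtype.ext he ▸ hb, fun h => ⟨a, h, rfl⟩⟩
    have h1 := Cardinal.mk_le_of_surjective hf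
    rw [Cardinal.mk_set, Cardinal.mk_Iio_ordinal, Cardinal.mk_Iio_ordinal,
      Cardinal.card_ord] at h1
    have h2 : τ.card ≤ L := Order.lt_succ_iff.1 (Cardinal.lt_ord.1 hτ)
    exact absurd (h1.trans (Cardinal.lift_le.2 h2)) (not_le.2 (Cardinal.cantor _))
  · exact h

/-- the injection -/
noncomputable def Fn (en : Ordinal.{u} → ZFSet.{u}) (l κ : Ordinal.{u}) (x : ZFSet.{u}) :
    ZFSet.{u} :=
  ZFSet.sep (fun w => ∃ i c : Ordinal.{u}, w = ZFSet.pair i.toZFSet (os l (Sc en x c)) ∧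
    nth {c | Jt en l x c} i c) (ZFSet.prod κ.toZFSet (ZFSet.powerset l.toZFSet))

theorem mem_Fn {en : Ordinal.{u} → ZFSet.{u}} {l κ : Ordinal.{u}} {x w : ZFSet.{u}} :
    w ∈ Fn en l κ x ↔ ∃ i c : Ordinal.{u}, i < κ ∧
      w = ZFSet.pair i.toZFSet (os l (Sc en x c)) ∧ nth {c | Jt en l x c} i c := by
  unfold Fn
  rw [ZFSet.mem_sep]
  constructor
  · rintro ⟨h1, i, c, rfl, h2⟩
    rw [ZFSet.pair_mem_prod] at h1
    exact ⟨i, c, toZFSet_mem_toZFSet_iff.1 h1.1, rfl, h2⟩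
  · rintro ⟨i, c, hi, rfl, h2⟩
    refine ⟨?_, i, c, rfl, h2⟩
    rw [ZFSet.pair_mem_prod]
    exact ⟨toZFSet_mem_toZFSet_iff.2 hi,
      ZFSet.mem_powerset.2 fun w hw => (ZFSet.mem_sep.1 hw).1⟩

theorem pair_mem_Fn {en : Ordinal.{u} → ZFSet.{u}} {l κ i : Ordinal.{u}} {x z : ZFSet.{u}} :
    ZFSet.pair i.toZFSet z ∈ Fn en l κ x ↔ i < κ ∧ ∃ c : Ordinal.{u},
      z = os l (Sc en x c) ∧ nth {c | Jt en l x c} i c := by
  rw [mem_Fn]
  constructor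
  · rintro ⟨i', c, hi, he, h⟩
    obtain ⟨h1, rfl⟩ := ZFSet.pair_injective he
    have h2 := toZFSet_injective h1
    subst h2
    exact ⟨hi, c, rfl, h⟩
  · rintro ⟨hi, c, rfl, h⟩
    exact ⟨i, c, hi, rfl, h⟩

theorem odp_Fn (hDXS : T_DXS.{u}) (hDXN : T_DXN.{u}) {en : Ordinal.{u} → ZFSet.{u}}
    (hen : EN en) (l κ : Ordinal.{u}) (x : ZFSet.{u}) : ODp x (Fn en l κ x) := by
  obtain ⟨Q, hQ, hN⟩ := hDXN _ (dx_Jt hDXS hen l)
  have hN' : ∀ (y i c : ZFSet.{u}), i.IsOrdinal → c.IsOrdinal →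
      (Q (fun n => if n = 0 then y else if n = 1 then i else c) ↔
        nth {c | Jt en l y c} i.rank c.rank) := by
    intro y i c hi hc
    have h := hN y (fun n => if n = 0 then i.rank else c.rank)
    have h1 : cons y (ov fun n => if n = 0 then i.rank else c.rank) =
        fun n => if n = 0 then y else if n = 1 then i else c := by
      funext n
      rcases n with _ | _ | n
      · rfl
      · exact hi.toZFSet_rank_eq
      · exact hc.toZFSet_rank_eq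
    rw [h1] at h
    exact h.symm
  refine Pool.Agent.H45.NF.ODp.of_dz (Q := fun v => ∀ w, w ∈ v 0 ↔ ∃ i z c,
    w = ZFSet.pair i z ∧ i ∈ κ.toZFSet ∧ c.IsOrdinal ∧
      Q (fun n => if n = 0 then v 1 else if n = 1 then i else c) ∧
      ∀ t, t ∈ z ↔ t ∈ l.toZFSet ∧ ∃ R, (c.IsOrdinal ∧ R = en c.rank) ∧
        ZFSet.pair (v 1) t ∈ R) ?_ ?_
  · refine DZ.all (R := fun w v => w ∈ v 0 ↔ ∃ i z c,
      w = ZFSet.pair i z ∧ i ∈ κ.toZFSet ∧ c.IsOrdinal ∧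
      Q (fun n => if n = 0 then v 1 else if n = 1 then i else c) ∧
      ∀ t, t ∈ z ↔ t ∈ l.toZFSet ∧ ∃ R, (c.IsOrdinal ∧ R = en c.rank) ∧
        ZFSet.pair (v 1) t ∈ R) (DZ.iff (DZ.mem 0 1) ?_)
    refine DZ.ex (R := fun i v => ∃ z c,
      v 0 = ZFSet.pair i z ∧ i ∈ κ.toZFSet ∧ c.IsOrdinal ∧
      Q (fun n => if n = 0 then v 2 else if n = 1 then i else c) ∧
      ∀ t, t ∈ z ↔ t ∈ l.toZFSet ∧ ∃ R, (c.IsOrdinal ∧ R = en c.rank) ∧
        ZFSet.pair (v 2) t ∈ R) ?_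
    refine DZ.ex (R := fun z v => ∃ c,
      v 1 = ZFSet.pair (v 0) z ∧ v 0 ∈ κ.toZFSet ∧ c.IsOrdinal ∧
      Q (fun n => if n = 0 then v 3 else if n = 1 then v 0 else c) ∧
      ∀ t, t ∈ z ↔ t ∈ l.toZFSet ∧ ∃ R, (c.IsOrdinal ∧ R = en c.rank) ∧
        ZFSet.pair (v 3) t ∈ R) ?_
    refine DZ.ex (R := fun c v =>
      v 2 = ZFSet.pair (v 1) (v 0) ∧ v 1 ∈ κ.toZFSet ∧ c.IsOrdinal ∧
      Q (fun n => if n = 0 then v 4 else if n = 1 then v 1 else c) ∧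
      ∀ t, t ∈ v 0 ↔ t ∈ l.toZFSet ∧ ∃ R, (c.IsOrdinal ∧ R = en c.rank) ∧
        ZFSet.pair (v 4) t ∈ R) ?_
    refine (loc_pair 3 2 1).dz.and (DZ.and ?_ ((DZ.ord 0).and (DZ.and ?_ ?_)))
    · exact DZ.od (R := fun b v => v 2 ∈ b) (OD.ordinal κ) (DZ.mem 3 0)
    · refine (hQ.ren fun n => if n = 0 then 5 else if n = 1 then 2 else 0).congr fun v => ?_
      have : (fun n => if n = 0 then v 5 else if n = 1 then v 2 else v 0) =
          fun n => v (if n = 0 then 5 else if n = 1 then 2 else 0) := by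
        funext n
        rcases n with _ | _ | n <;> rfl
      show Q (fun n => if n = 0 then v 5 else if n = 1 then v 2 else v 0) ↔ _
      rw [this]
    · refine DZ.all (R := fun t v => t ∈ v 1 ↔ t ∈ l.toZFSet ∧
        ∃ R, ((v 0).IsOrdinal ∧ R = en (v 0).rank) ∧ ZFSet.pair (v 5) t ∈ R)
        (DZ.iff (DZ.mem 0 2) (DZ.and ?_ ?_))
      · exact DZ.od (R := fun b v => v 0 ∈ b) (OD.ordinal l) (DZ.mem 1 0)
      · refine DZ.ex (R := fun R v => ((v 1).IsOrdinal ∧ R = en (v 1).rank) ∧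
          ZFSet.pair (v 6) (v 0) ∈ R) (DZ.and ?_ (loc_pmem 7 1 0).dz)
        exact hen.dz.ren fun n => if n = 0 then 2 else 0
  · intro y
    show (∀ w, w ∈ y ↔ ∃ i z c, w = ZFSet.pair i z ∧ i ∈ κ.toZFSet ∧ c.IsOrdinal ∧
      Q (fun n => if n = 0 then x else if n = 1 then i else c) ∧
      ∀ t, t ∈ z ↔ t ∈ l.toZFSet ∧ ∃ R, (c.IsOrdinal ∧ R = en c.rank) ∧
        ZFSet.pair x t ∈ R) ↔ y = Fn en l κ x
    have key : ∀ w, (∃ i z c, w = ZFSet.pair i z ∧ i ∈ κ.toZFSet ∧ c.IsOrdinal ∧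
        Q (fun n => if n = 0 then x else if n = 1 then i else c) ∧
        ∀ t, t ∈ z ↔ t ∈ l.toZFSet ∧ ∃ R, (c.IsOrdinal ∧ R = en c.rank) ∧
          ZFSet.pair x t ∈ R) ↔ w ∈ Fn en l κ x := by
      intro w
      rw [mem_Fn]
      constructor
      · rintro ⟨i, z, c, rfl, hi, hc, h1, h2⟩
        obtain ⟨i, hi', rfl⟩ := mem_toZFSet_iff.1 hi
        rw [hN' x _ _ (ZFSet.isOrdinal_toZFSet i) hc, rank_toZFSet] at h1
        refine ⟨i, c.rank, hi', ?_, h1⟩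
        congr 1
        rw [← os_eq_iff]
        intro t
        rw [h2 t]
        refine and_congr_right fun ht => ?_
        obtain ⟨a, -, rfl⟩ := mem_toZFSet_iff.1 ht
        constructor
        · rintro ⟨R, ⟨-, rfl⟩, h⟩
          exact ⟨a, h, rfl⟩
        · rintro ⟨b, hb, he⟩
          rw [toZFSet_injective he]
          exact ⟨_, ⟨hc, rfl⟩, hb⟩
      · rintro ⟨i, c, hi, rfl, h⟩
        refine ⟨i.toZFSet, _, c.toZFSet, rfl, toZFSet_mem_toZFSet_iff.2 hi,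
          ZFSet.isOrdinal_toZFSet c, ?_, fun t => ?_⟩
        · rw [hN' x _ _ (ZFSet.isOrdinal_toZFSet i) (ZFSet.isOrdinal_toZFSet c),
            rank_toZFSet, rank_toZFSet]
          exact h
        · rw [(os_eq_iff (l := l) (X := Sc en x c)).2 rfl t]
          refine and_congr_right fun ht => ?_
          obtain ⟨a, -, rfl⟩ := mem_toZFSet_iff.1 ht
          rw [rank_toZFSet]
          constructor
          · rintro ⟨b, hb, he⟩
            rw [toZFSet_injective he]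
            exact ⟨_, ⟨ZFSet.isOrdinal_toZFSet c, rfl⟩, hb⟩
          · rintro ⟨R, ⟨-, rfl⟩, h⟩
            exact ⟨a, h, rfl⟩
    constructor
    · intro h
      ext w
      rw [h w, key w]
    · rintro rfl w
      exact (key w).symm

theorem pf_WIJ (hDXS : T_DXS.{u}) (hDXN : T_DXN.{u}) : T_WIJ.{u} := by
  rintro L hL ⟨x, hxL, hx⟩ hno
  obtain ⟨en, hen⟩ := All.en.{u}
  have hlg := large hen hx
  have hfn : ZFSet.IsFunc (succ L).ord.toZFSet (ZFSet.powerset L.ord.toZFSet)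
      (Fn en L.ord (succ L).ord x) := by
    refine ⟨fun w hw => (ZFSet.mem_sep.1 hw).1, fun w hw => ?_⟩
    obtain ⟨i, hi, rfl⟩ := mem_toZFSet_iff.1 hw
    obtain ⟨c, hc⟩ := hlg i hi
    refine ⟨os L.ord (Sc en x c), pair_mem_Fn.2 ⟨hi, c, rfl, hc⟩, ?_⟩
    intro z hz
    obtain ⟨-, d, rfl, hd⟩ := pair_mem_Fn.1 hz
    rw [nth_val hd hc]
  obtain ⟨a, b, z, hab, hb, h1, h2⟩ := hno x (Fn en L.ord (succ L).ord x) hxL
    (odp_Fn hDXS hDXN hen _ _ x) hfn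
  rw [pair_mem_Fn] at h1 h2
  obtain ⟨ha, c, hc, hn⟩ := h1
  obtain ⟨-, d, hd, hm⟩ := h2
  have hcd : c < d := ((All.vh _).2.1 a b c d hn hm).1 hab
  obtain ⟨t, ht, hne⟩ := hm.1 c hcd
  refine hne ?_
  have h3 := hc.symm.trans hd
  have h4 := @ord_mem_os L.ord t (Sc en x c)
  have h5 := @ord_mem_os L.ord t (Sc en x d)
  rw [h3] at h4
  constructor
  · intro h
    exact (h4.1 (h5.2 ⟨ht, h⟩)).2
  · intro h
    exact (h5.1 (h4.2 ⟨ht, h⟩)).2

end Pool.Agent.H81.SD
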