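import Pool.Agent.H98.SD.TargetsH
import Pool.Agent.H81.SD.WIJ

/-!
# Row SCX of the board SecondDichotomy (MP_e37c09_lc): if the successor of `L` is correct then there
is an injection of the successor of `L` into the power set of `L`
-/

open Ordinal Cardinal Order Set
open scoped ZFSet

universe u

namespace Pool.Agent.H81.SD

open _root_.HD _root_.HD.SD HD.NF

/-- A subset of `L` which is definable from `x` is the trace of a section with a least code. -/
theorem trace1 {en : Ordinal.{u} → ZFSet.{u}} (hen : EN en) {l : Ordinal.{u}} {x : ZFSet.{u}}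
    {s : Set Ordinal.{u}} (hs : ODp x (os l s)) :
    ∃ c, Jt en l x c ∧ ∀ a < l, (a ∈ Sc en x c ↔ a ∈ s) := by
  have h1 : os l s ⊆ l.toZFSet := fun w hw => (ZFSet.mem_sep.1 hw).1
  obtain ⟨R, hR, -, hR2⟩ := Pool.Agent.H72.HV.pf_UNI.1 (succ x.rank) l.toZFSet x (os l s)
    (OD.ordinal _) (ZFSet.mem_vonNeumann.2 (lt_succ _)) hs h1
  obtain ⟨c, hc⟩ := (hen.od R).1 hR
  have hne : ({c | ∀ a < l, (a ∈ Sc en x c ↔ a ∈ s)} : Set Ordinal.{u}).Nonempty := by
    refine ⟨c, fun a ha => ?_⟩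
    show ZFSet.pair x a.toZFSet ∈ en c ↔ a ∈ s
    rw [hc, hR2, ord_mem_os]
    exact ⟨fun h => h.2, fun h => ⟨ha, h⟩⟩
  have hm := csInf_mem hne
  refine ⟨sInf {c | ∀ a < l, (a ∈ Sc en x c ↔ a ∈ s)}, fun c' hc' => ?_, hm⟩
  by_contra hcon
  push Not at hcon
  exact notMem_of_lt_csInf hc' (OrderBot.bddBelow _)
    fun a ha => (hcon a ha).symm.trans (hm a ha)

/-- If there are more than `L` subsets of `L` which are definable from `x`, then there are more than
`L` least codes. -/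
theorem large_of {en : Ordinal.{u} → ZFSet.{u}} (hen : EN en) {L : Cardinal.{u}} {x : ZFSet.{u}}
    (z : Ordinal.{u} → Set Ordinal.{u}) (h1 : ∀ i < (succ L).ord, ODp x (os L.ord (z i)))
    (h2 : ∀ i < (succ L).ord, ∀ k < (succ L).ord, (∀ a < L.ord, (a ∈ z i ↔ a ∈ z k)) → i = k) :
    ∀ i < (succ L).ord, ∃ c, nth {c | Jt en L.ord x c} i c := by
  rcases (All.vh {c | Jt en L.ord x c}).2.2.2 (succ L).ord with h | h
  · exfalso
    have h3 : ∀ i, ∃ c, i < (succ L).ord → Jt en L.ord x c ∧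
        ∀ a < L.ord, (a ∈ Sc en x c ↔ a ∈ z i) := by
      intro i
      by_cases hi : i < (succ L).ord
      · obtain ⟨c, hc⟩ := trace1 hen (h1 i hi)
        exact ⟨c, fun _ => hc⟩
      · exact ⟨0, fun h => absurd h hi⟩
    choose m hm using h3
    refine few_noinj h m (fun i hi => (hm i hi).1) fun i hi k hk he => h2 i hi k hk ?_
    intro a ha
    rw [← (hm i hi).2 a ha, ← (hm k hk).2 a ha, he]
  · exact h

/-- the conclusion from the number of the least codes -/
theorem inj_of_large (hDXS : T_DXS.{u}) (hDXN : T_DXN.{u}) {en : Ordinal.{u} → ZFSet.{u}}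
    (hen : EN en) {L : Cardinal.{u}} {x : ZFSet.{u}}
    (hlg : ∀ i < (succ L).ord, ∃ c, nth {c | Jt en L.ord x c} i c) : ∃ F, ODp x F ∧
      ZFSet.IsFunc (succ L).ord.toZFSet (ZFSet.powerset L.ord.toZFSet) F ∧
        ∀ (a b : Ordinal.{u}) (z : ZFSet.{u}), a < b → b < (succ L).ord →
          ZFSet.pair a.toZFSet z ∈ F → ZFSet.pair b.toZFSet z ∉ F := by
  refine ⟨Fn en L.ord (succ L).ord x, odp_Fn hDXS hDXN hen _ _ x,
    ⟨fun w hw => (ZFSet.mem_sep.1 hw).1, fun w hw => ?_⟩, fun a b z hab hb h1 h2 => ?_⟩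
  · obtain ⟨i, hi, rfl⟩ := mem_toZFSet_iff.1 hw
    obtain ⟨c, hc⟩ := hlg i hi
    refine ⟨os L.ord (Sc en x c), pair_mem_Fn.2 ⟨hi, c, rfl, hc⟩, ?_⟩
    intro z hz
    obtain ⟨-, d, rfl, hd⟩ := pair_mem_Fn.1 hz
    rw [nth_val hd hc]
  · rw [pair_mem_Fn] at h1 h2
    obtain ⟨ha, c, hc, hn⟩ := h1
    obtain ⟨-, d, hd, hm⟩ := h2
    have hcd : c < d := ((All.vh _).2.1 a b c d hn hm).1 hab
    obtain ⟨t, ht, hne⟩ := hm.1 c hcd
    refine hne ?_
    have h3 := hc.symm.trans hd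
    have h4 := @ord_mem_os L.ord t (Sc en x c)
    have h5 := @ord_mem_os L.ord t (Sc en x d)
    rw [h3] at h4
    constructor
    · intro h
      exact (h4.1 (h5.2 ⟨ht, h⟩)).2
    · intro h
      exact (h5.1 (h4.2 ⟨ht, h⟩)).2

/-- A map onto an ordinal is determined by the order it induces. -/
theorem det {l β β' : Ordinal.{u}} {g g' : Ordinal.{u} → Ordinal.{u}}
    (h1 : ∀ a < l, g a < β) (h2 : ∀ b < β, ∃ a < l, g a = b)
    (h1' : ∀ a < l, g' a < β') (h2' : ∀ b < β', ∃ a < l, g' a = b)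
    (h : ∀ a < l, ∀ a' < l, (g a < g a' ↔ g' a < g' a')) : β = β' := by
  have key : ∀ b : Ordinal.{u}, ∀ a < l, g a = b → g' a = b := by
    intro b
    induction b using WellFoundedLT.induction with
    | ind b ih =>
      rintro a ha rfl
      rcases lt_trichotomy (g' a) (g a) with hlt | he | hlt
      · exfalso
        obtain ⟨c, hc, hcb⟩ := h2 (g' a) (hlt.trans (h1 a ha))
        have h3 := ih (g' a) hlt c hc hcb
        have h4 := (h c hc a ha).1 (by rw [hcb]; exact hlt)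
        rw [h3] at h4
        exact lt_irrefl _ h4
      · exact he
      · exfalso
        obtain ⟨c, hc, hcb⟩ := h2' (g a) (hlt.trans (h1' a ha))
        have h4 := (h c hc a ha).2 (by rw [hcb]; exact hlt)
        have h3 := ih (g c) h4 c hc rfl
        rw [hcb] at h3
        rw [← h3] at h4
        exact lt_irrefl _ h4
  rcases lt_trichotomy β β' with hlt | he | hlt
  · exfalso
    obtain ⟨a, ha, hab⟩ := h2' β hlt
    have := key (g a) a ha rfl
    rw [hab] at this
    exact absurd (h1 a ha) (by rw [← this]; exact lt_irrefl _)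
  · exact he
  · exfalso
    obtain ⟨a, ha, hab⟩ := h2 β' hlt
    have := key (g a) a ha rfl
    rw [hab] at this
    exact absurd (h1' a ha) (by rw [this]; exact lt_irrefl _)

/-- the order on `l` induced by `g`, coded by a subset of `l` -/
def zo (t : Ordinal.{u} → Ordinal.{u} → Ordinal.{u}) (l : Ordinal.{u})
    (g : Ordinal.{u} → Ordinal.{u}) : Set Ordinal.{u} :=
  {p | ∃ a < l, ∃ a' < l, p = t a a' ∧ g a < g a'}

theorem pf_SCX (hDXS : T_DXS.{u}) (hDXN : T_DXN.{u}) (hODX : T_ODX.{u}) (hODY : T_ODY.{u}) :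
    T_SCX.{u} := by
  intro L hL x hS
  obtain ⟨en, hen⟩ := All.en.{u}
  obtain ⟨t, ht1, ht2, ht3⟩ := All.pr.{u}
  refine inj_of_large hDXS hDXN hen ?_
  -- one ordinal
  have hone : ∀ β, L.ord < β → β < (succ L).ord → ∃ g : Ordinal.{u} → Ordinal.{u},
      (∀ a < L.ord, g a < β) ∧ (∀ b < β, ∃ a < L.ord, g a = b) ∧
        ODp x (os L.ord (zo t L.ord g)) := by
    intro β hLβ hβ
    obtain ⟨f, hf, hfn, hon⟩ := hS β hLβ hβ
    have hv : ∀ a : Ordinal.{u}, ∃ b : Ordinal.{u}, a < L.ord → b < β ∧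
        ZFSet.pair a.toZFSet b.toZFSet ∈ f := by
      intro a
      by_cases ha : a < L.ord
      · obtain ⟨w, hw, -⟩ := hfn.2 a.toZFSet (toZFSet_mem_toZFSet_iff.2 ha)
        have := hfn.1 hw
        rw [ZFSet.pair_mem_prod] at this
        obtain ⟨b, hb, rfl⟩ := mem_toZFSet_iff.1 this.2
        exact ⟨b, fun _ => ⟨hb, hw⟩⟩
      · exact ⟨0, fun h => absurd h ha⟩
    choose g hg using hv
    have hu : ∀ a < L.ord, ∀ b : Ordinal.{u}, ZFSet.pair a.toZFSet b.toZFSet ∈ f ↔ b = g a := by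
      intro a ha b
      constructor
      · intro hb
        obtain ⟨w, -, hw⟩ := hfn.2 a.toZFSet (toZFSet_mem_toZFSet_iff.2 ha)
        exact toZFSet_injective ((hw _ hb).trans (hw _ (hg a ha).2).symm)
      · rintro rfl
        exact (hg a ha).2
    refine ⟨g, fun a ha => (hg a ha).1, fun b hb => ?_, ?_⟩
    · obtain ⟨a, ha, hab⟩ := hon b hb
      exact ⟨a, ha, ((hu a ha b).1 hab).symm⟩
    · obtain ⟨c, hc⟩ := (hODX en hen x (succ L).ord).2.2.1 f hf
      have hLs : L.ord < (succ L).ord := Cardinal.ord_lt_ord.2 (lt_succ L)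
      have hP : DX fun x w => ∃ a < L.ord, ∃ a' < L.ord, w 0 = t a a' ∧
          ∃ b < (succ L).ord, ∃ b' < (succ L).ord, b < b' ∧ b ∈ Sc2 en x c a ∧
            b' ∈ Sc2 en x c a' := by
        have h2 : ∀ i j : ℕ, DX fun x w => w i ∈ Sc2 en x c (w j) := fun i j =>
          DX.sub (S := fun c x w => w i ∈ Sc2 en x c (w j)) c
            ((hDXS en hen).2.ren fun n => if n = 0 then i + 1 else if n = 1 then 0 else j + 1)
        refine DX.exLtc L.ord (S := fun a x w => ∃ a' < L.ord, w 0 = t a a' ∧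
          ∃ b < (succ L).ord, ∃ b' < (succ L).ord, b < b' ∧ b ∈ Sc2 en x c a ∧
            b' ∈ Sc2 en x c a') ?_
        refine DX.exLtc L.ord (S := fun a' x w => w 1 = t (w 0) a' ∧
          ∃ b < (succ L).ord, ∃ b' < (succ L).ord, b < b' ∧ b ∈ Sc2 en x c (w 0) ∧
            b' ∈ Sc2 en x c a') (DX.and ?_ ?_)
        · exact DX.o (DO.s3 (X := fun a a' p => p = t a a') ht1 1 0 2)
        · refine DX.exLtc (succ L).ord (S := fun b x w => ∃ b' < (succ L).ord, b < b' ∧
            b ∈ Sc2 en x c (w 1) ∧ b' ∈ Sc2 en x c (w 0)) ?_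
          refine DX.exLtc (succ L).ord (S := fun b' x w => w 0 < b' ∧
            w 0 ∈ Sc2 en x c (w 2) ∧ b' ∈ Sc2 en x c (w 1)) ?_
          exact (DX.o (DO.lt 1 0)).and ((h2 1 3).and (h2 0 2))
      have hO := hODY _ hP x L.ord (fun _ => 0)
      have he : {b | ∃ a < L.ord, ∃ a' < L.ord, (cns b fun _ => 0) 0 = t a a' ∧
          ∃ b < (succ L).ord, ∃ b' < (succ L).ord, b < b' ∧ b ∈ Sc2 en x c a ∧
            b' ∈ Sc2 en x c a'} = zo t L.ord g := by
        ext p
        constructor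
        · rintro ⟨a, ha, a', ha', hp, b, hb, b', hb', hlt, h3, h4⟩
          rw [hc b hb a (ha.trans hLs), hu a ha] at h3
          rw [hc b' hb' a' (ha'.trans hLs), hu a' ha'] at h4
          exact ⟨a, ha, a', ha', hp, by rw [← h3, ← h4]; exact hlt⟩
        · rintro ⟨a, ha, a', ha', hp, hlt⟩
          have h3 := ((hg a ha).1).trans hβ
          have h4 := ((hg a' ha').1).trans hβ
          exact ⟨a, ha, a', ha', hp, g a, h3, g a', h4, hlt,
            (hc _ h3 a (ha.trans hLs)).2 (hg a ha).2,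
            (hc _ h4 a' (ha'.trans hLs)).2 (hg a' ha').2⟩
      rw [he] at hO
      exact hO
  -- the family
  have hs : ∀ i < (succ L).ord, L.ord + 1 + i < (succ L).ord := by
    intro i hi
    have hp := Ordinal.isPrincipal_add_ord (hL.le.trans (lt_succ L).le)
    refine hp (hp (Cardinal.ord_lt_ord.2 (lt_succ L)) ?_) hi
    refine lt_of_lt_of_le ?_ (Cardinal.ord_le_ord.2 (hL.le.trans (lt_succ L).le))
    rw [Cardinal.ord_aleph0]
    exact Ordinal.one_lt_omega0
  have hl : ∀ i : Ordinal.{u}, L.ord < L.ord + 1 + i := fun i =>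
    lt_of_lt_of_le (lt_add_one L.ord) (le_self_add)
  have hgi : ∀ i, ∃ g : Ordinal.{u} → Ordinal.{u}, i < (succ L).ord →
      (∀ a < L.ord, g a < L.ord + 1 + i) ∧ (∀ b < L.ord + 1 + i, ∃ a < L.ord, g a = b) ∧
        ODp x (os L.ord (zo t L.ord g)) := by
    intro i
    by_cases hi : i < (succ L).ord
    · obtain ⟨g, hg⟩ := hone _ (hl i) (hs i hi)
      exact ⟨g, fun _ => hg⟩
    · exact ⟨fun _ => 0, fun h => absurd h hi⟩
  choose g hg using hgi
  refine large_of hen (fun i => zo t L.ord (g i)) (fun i hi => (hg i hi).2.2) ?_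
  intro i hi k hk he
  refine add_left_cancel (a := L.ord + 1) (det (hg i hi).1 (hg i hi).2.1 (hg k hk).1
    (hg k hk).2.1 fun a ha a' ha' => ?_)
  have h3 := he (t a a') (ht3 L hL.le a ha a' ha')
  have h4 : ∀ g : Ordinal.{u} → Ordinal.{u}, t a a' ∈ zo t L.ord g ↔ g a < g a' := by
    intro g
    constructor
    · rintro ⟨c, -, c', -, h5, h6⟩
      obtain ⟨rfl, rfl⟩ := ht2 _ _ _ _ h5
      exact h6
    · exact fun h => ⟨a, ha, a', ha', rfl, h⟩
  exact (h4 _).symm.trans (h3.trans (h4 _))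

end Pool.Agent.H81.SD
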