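import Pool.Agent.H98.SD.TargetsE
import Pool.Agent.H81.SD.WIJ

/-!
# Row WIE of the board SecondDichotomy (MP_e37c09_lc): the injection is definable from the same
parameter
-/

open Ordinal Cardinal Order Set
open scoped ZFSet

universe u

namespace Pool.Agent.H81.SD

open _root_.HD _root_.HD.SD HD.NF

theorem pf_WIE (hDXS : T_DXS.{u}) (hDXN : T_DXN.{u}) : T_WIE.{u} := by
  intro L hL x hx
  obtain ⟨en, hen⟩ := All.en.{u}
  have hlg := large hen hx
  refine ⟨Fn en L.ord (succ L).ord x, odp_Fn hDXS hDXN hen _ _ x,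
    ⟨fun w hw => (ZFSet.mem_sep.1 hw).1, fun w hw => ?_⟩, fun a b z hab hb h1 h2 => ?_⟩
  · obtain ⟨i, hi, rfl⟩ := mem_toZFSet_iff.1 hw
    obtain ⟨c, hc⟩ := hlg i hi
    refine ⟨os L.ord (Sc en x c), pair_mem_Fn.2 ⟨hi, c, rfl, hc⟩, ?_⟩
    intro z hz
    obtain ⟨-, d, rfl, hd⟩ := pair_mem_Fn.1 hz
    rw [nth_val hd hc]
  · rw [pair_mem_Fn] at h1 h2
    obtain ⟨ha, c, hc, hn⟩ := h1
    obtain ⟨-, d, hd, hm⟩ := h2
    have hcd : c < d := ((All.vh _).2.1 a b c d hn hm).1 hab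
    obtain ⟨t, ht, hne⟩ := hm.1 c hcd
    refine hne ?_
    have h3 := hc.symm.trans hd
    have h4 := @ord_mem_os L.ord t (Sc en x c)
    have h5 := @ord_mem_os L.ord t (Sc en x d)
    rw [h3] at h4
    constructor
    · intro h
      exact (h4.1 (h5.2 ⟨ht, h⟩)).2
    · intro h
      exact (h5.1 (h4.2 ⟨ht, h⟩)).2

end Pool.Agent.H81.SD
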