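import Pool.Agent.H98.SD.TargetsM
import Pool.Agent.H98.SD.Lib

/-!
# Row BDX of the board SecondDichotomy (MP_e37c09_lc), part A: a countable cofinal subset
-/

open Ordinal Cardinal Order Set
open scoped ZFSet

universe u

namespace Pool.Agent.H81.SD

open _root_.HD _root_.HD.SD

open HD.NF (w0)

/-- A countable cofinal subset of `L` is definable from `x`. -/
theorem bdx_cof (hDXS : T_DXS.{u}) (hDXN : T_DXN.{u}) (hODX : T_ODX.{u}) (hODY : T_ODY.{u})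
    {L : Cardinal.{u}} (hL : ℵ₀ < L) (hcof : L.ord.cof = ℵ₀) {x : ZFSet.{u}} (h : Bdx L x) :
    ∃ Y : Set Ordinal.{u}, HD.NF.ODp x (os L.ord Y) ∧ (∀ a ∈ Y, a < L.ord) ∧
      (∀ m < L.ord, ∃ a ∈ Y, m < a) ∧
      ∃ g : Ordinal.{u} → Ordinal.{u}, ∀ a ∈ Y, ∃ i < w0, g i = a := by
  classical
  obtain ⟨en, hen⟩ := All.en.{u}
  obtain ⟨D, hD, hDL, hun, τ, hτ, g, hg⟩ := h.sg
  obtain ⟨X, hXdef⟩ : ∃ X : Set Ordinal.{u}, X = {a | a.toZFSet ∈ D} := ⟨_, rfl⟩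
  have hX : ∀ a, a ∈ X ↔ a.toZFSet ∈ D := fun a => by rw [hXdef]; rfl
  have hXL : ∀ a ∈ X, a < L.ord := fun a ha => toZFSet_mem_toZFSet_iff.1 (hDL ((hX a).1 ha))
  have hfew : Few L.ord X := ⟨τ, hτ, g, fun a ha => hg a ((hX a).1 ha)⟩
  obtain ⟨η, hη, e1, e2⟩ := enum hfew
  obtain ⟨B, hB, hBL, e, he⟩ := All.vg L.ord (Cardinal.isSuccLimit_ord hL.le)
  rw [hcof] at he
  have hI : ∀ k, ∃ i, e k < L.ord → i < η ∧ ∃ z, nth X i z ∧ e k < z := by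
    intro k
    by_cases hk : e k < L.ord
    · obtain ⟨a, ha, haD⟩ := hun _ hk
      obtain ⟨i, hi, hn⟩ := e2 a ((hX a).2 haD)
      exact ⟨i, fun _ => ⟨hi, a, hn, ha⟩⟩
    · exact ⟨0, fun h => absurd h hk⟩
  choose I hI using hI
  obtain ⟨U, hUdef⟩ : ∃ U : Set Ordinal.{u}, U = {i | ∃ k < w0, e k < L.ord ∧ I k = i} :=
    ⟨_, rfl⟩
  have hU : ∀ i, i ∈ U ↔ ∃ k < w0, e k < L.ord ∧ I k = i := fun i => by rw [hUdef]; rfl
  have hUo : HD.NF.ODp x (os η U) := h.bd η hη _ fun w hw => (ZFSet.mem_sep.1 hw).1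
  obtain ⟨c, hc⟩ := (hODX en hen x L.ord).2.1 D hD
  obtain ⟨d, hd⟩ := (hODX en hen x L.ord).2.1 _ hUo
  have hS1 : ∀ c, DX fun x w => w 0 ∈ Sc en x c := fun c =>
    DX.sub (S := fun c x w => w 0 ∈ Sc en x c) c
      ((hDXS en hen).1.ren fun n => if n = 0 then 1 else 0)
  have hN : DX fun x w => nth {b | b < L.ord ∧ b ∈ Sc en x c} (w 0) (w 1) :=
    dx_nth hDXN (P := fun x w => w 0 < L.ord ∧ w 0 ∈ Sc en x c)
      ((DX.o (DO.ltc 0 L.ord)).and (hS1 c)) 0 1 (fun n => n)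
  have hP : DX fun x w => ∃ i < η, i ∈ Sc en x d ∧
      nth {b | b < L.ord ∧ b ∈ Sc en x c} i (w 0) :=
    DX.exLtc η (S := fun i x w => i ∈ Sc en x d ∧
      nth {b | b < L.ord ∧ b ∈ Sc en x c} i (w 0)) ((hS1 d).and hN)
  have hXe : {b | b < L.ord ∧ b ∈ Sc en x c} = X := by
    ext b
    constructor
    · rintro ⟨h1, h2⟩
      exact (hX b).2 ((hc b h1).1 h2)
    · intro h1
      exact ⟨hXL b h1, (hc b (hXL b h1)).2 ((hX b).1 h1)⟩
  have hY : ∀ z, (∃ i < η, i ∈ Sc en x d ∧ nth {b | b < L.ord ∧ b ∈ Sc en x c} i z) ↔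
      ∃ i < η, i ∈ U ∧ nth X i z := by
    intro z
    rw [hXe]
    refine exists_congr fun i => and_congr_right fun hi => and_congr_left fun _ => ?_
    rw [hd i (hi.trans hη), ord_mem_os]
    exact ⟨fun h => h.2, fun h => ⟨hi, h⟩⟩
  refine ⟨{z | ∃ i < η, i ∈ U ∧ nth X i z}, ?_, ?_, ?_, ?_⟩
  · have := hODY _ hP x L.ord (fun _ => 0)
    have he : {b | ∃ i < η, i ∈ Sc en x d ∧
        nth {b | b < L.ord ∧ b ∈ Sc en x c} i ((cns b fun _ => 0) 0)} =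
        {z | ∃ i < η, i ∈ U ∧ nth X i z} := by
      ext z
      exact hY z
    rw [he] at this
    exact this
  · rintro a ⟨i, -, -, hn⟩
    exact hXL a hn.1
  · intro m hm
    obtain ⟨b, hb, hmb, hbB⟩ := hB.unb m hm
    obtain ⟨k, hk, hkb⟩ := he b hbB
    obtain ⟨h1, z, hz, hlt⟩ := hI k (by rw [hkb]; exact hb)
    refine ⟨z, ⟨I k, h1, (hU _).2 ⟨k, hk, by rw [hkb]; exact hb, rfl⟩, hz⟩, ?_⟩
    rw [hkb] at hlt
    exact hmb.trans hlt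
  · refine ⟨fun k => if h : ∃ z, nth X (I k) z then h.choose else 0, ?_⟩
    rintro a ⟨i, hi, hiU, hn⟩
    obtain ⟨k, hk, -, rfl⟩ := (hU _).1 hiU
    refine ⟨k, hk, ?_⟩
    have h1 : ∃ z, nth X (I k) z := ⟨a, hn⟩
    show (if h : ∃ z, nth X (I k) z then h.choose else 0) = a
    rw [dif_pos h1]
    exact nth_val h1.choose_spec hn

end Pool.Agent.H81.SD
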